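import Pool.Agent.Lib_MP_b5064f_lc.NPMem

set_option autoImplicit false

/-!
# TREE t-SPANNER is NP-complete on path graphs for every fixed t at least 4

`treeSpanner t` is the decision problem TREE `t`-SPANNER on all finite graphs, the input being the
adjacency matrix. It belongs to NP, and every language in NP reduces to it by a polynomial time
many-one reduction all of whose values are codes of connected path graphs.
-/

namespace Pool.Agent.Spanner.Old.NPComplete

open Pool.Agent.Spanner

/-- For every fixed `t ≥ 4`, TREE `t`-SPANNER restricted to path graphs is NP-complete. -/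
theorem result : ∀ t : ℕ, 4 ≤ t →
    treeSpanner t ∈ N68a2faeb.NP ∧
      ∀ A ∈ N68a2faeb.NP, ∃ f : List Bool → List Bool, N68a2faeb.IsPolyTime f ∧
        ∀ x, ∃ (n : ℕ) (G : SimpleGraph (Fin n)), f x = graphCode G ∧ G.Connected ∧
          IsPathGraph G ∧ (A x = true ↔ HasTreeSpanner G t) ∧ A x = treeSpanner t (f x) := by
  intro t ht
  refine ⟨treeSpanner_mem_NP t, fun A hA => ?_⟩
  obtain ⟨f, hf, h⟩ := hardness ht hA
  refine ⟨f, hf, fun x => ?_⟩
  obtain ⟨n, G, h1, h2, h3, h4⟩ := h x
  refine ⟨n, G, h1, h2, h3, h4, ?_⟩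
  rw [Bool.eq_iff_iff, h4, h1, treeSpanner_graphCode]

end Pool.Agent.Spanner.Old.NPComplete
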